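import Pool.Agent.Lib.MP_defcf3_al.BRP.Base
import Pool.Agent.Lib.MP_defcf3_al.BR.H4.Dlog

/-! # Module RT (project BR7): Rosset-Tate for symbols over finite G-sets; helper65. -/

set_option autoImplicit false

namespace BRP.H65

universe u

open BR7 BR7.H65

variable {ℓ : ℕ} [Fact ℓ.Prime] [Fact (Odd ℓ)]


section
variable {F Ω : Type u} [Field F] [Field Ω] [Algebra F Ω] {ζ : Ωˣ}

/-- shortcut instance -/
noncomputable local instance instCG : CommGroup (H2 (HZ F ζ) Ωˣ) :=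
  QuotientGroup.Quotient.commGroup _

variable (ℓ) in
/-- the subgroup generated by the symbols -/
def SS (F : Type u) {Ω : Type u} [Field F] [Field Ω] [Algebra F Ω] (ζ : Ωˣ) :
    Subgroup (H2 (HZ F ζ) Ωˣ) :=
  Subgroup.closure {s | ∃ a b : Ωˣ, InL F ζ a ∧ InL F ζ b ∧ s = symb ℓ F ζ a b}

section eqv
variable {X : Type u} [MulAction (HZ F ζ) X]

lemma eqv_one : EqvF (G := HZ F ζ) (1 : X → Ωˣ) := by
  intro g x
  simp

lemma eqv_mul {u v : X → Ωˣ} (hu : EqvF (G := HZ F ζ) u) (hv : EqvF (G := HZ F ζ) v) :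
    EqvF (G := HZ F ζ) (u * v) := by
  intro g x
  simp only [Pi.mul_apply, smul_mul', hu g x, hv g x]

lemma eqv_pow {u : X → Ωˣ} (hu : EqvF (G := HZ F ζ) u) (k : ℕ) :
    EqvF (G := HZ F ζ) (u ^ k) := by
  intro g x
  simp only [Pi.pow_apply, smul_pow', hu g x]

lemma eqv_push {Y : Type u} [Fintype X] [MulAction (HZ F ζ) Y] [DecidableEq Y] (π : X → Y)
    (hπ : ∀ (h : HZ F ζ) (x : X), π (h • x) = h • π x) {f : X → Ωˣ}
    (hf : EqvF (G := HZ F ζ) f) :
    EqvF (G := HZ F ζ) (fun y => ∏ x ∈ Finset.univ.filter (fun x => π x = y), f x) := by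
  intro g y
  show ∏ x ∈ Finset.univ.filter (fun x => π x = g • y), f x =
    g • ∏ x ∈ Finset.univ.filter (fun x => π x = y), f x
  rw [Finset.smul_prod']
  apply Finset.prod_nbij' (fun x => g⁻¹ • x) (fun x => g • x)
  · intro x hx
    simp only [Finset.mem_filter, Finset.mem_univ, true_and] at hx ⊢
    rw [hπ, hx, inv_smul_smul]
  · intro x hx
    simp only [Finset.mem_filter, Finset.mem_univ, true_and] at hx ⊢
    rw [hπ, hx]
  · intro x _; simp
  · intro x _; simp
  · intro x _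
    rw [← hf, smul_inv_smul]

end eqv

lemma open_stab_units [IsGalois F Ω] (a : Ωˣ) : IsOpen {g : HZ F ζ | g • a = a} := by
  have h := H4.disc F Ω a
  exact h.preimage continuous_subtype_val

/-- An element whose coprime powers lie in a subgroup lies in it. -/
lemma mem_of_pow {G : Type u} [Group G] (S : Subgroup G) (x : G) (m : ℕ) (hm : Nat.Coprime m ℓ)
    (h1 : x ^ m ∈ S) (h2 : x ^ ℓ = 1) : x ∈ S := by
  obtain ⟨a, b, hab⟩ := Nat.isCoprime_iff_coprime.2 hm
  have h3 : x = (x ^ m) ^ a * (x ^ ℓ) ^ b := by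
    rw [← zpow_natCast x m, ← zpow_natCast x ℓ, ← zpow_mul, ← zpow_mul, ← zpow_add]
    have : (m : ℤ) * a + (ℓ : ℕ) * b = 1 := by linarith
    rw [this, zpow_one]
  rw [h3, h2, one_zpow, mul_one]
  exact S.zpow_mem h1 a

section
variable [IsGalois F Ω] [IsSepClosed Ω] (hζ : IsPrimitiveRoot ζ ℓ)
include hζ

variable {X : Type u} [MulAction (HZ F ζ) X] [Fintype X] (hX : OpenStab (HZ F ζ) X)
include hX

lemma symX_one_left (h1 : SymXAddStatement.{u} ℓ) {v : X → Ωˣ} (hv : EqvF (G := HZ F ζ) v) :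
    symX ℓ F ζ 1 v = 1 := by
  have h := (h1 F Ω ζ hζ X hX).2.1 1 1 v eqv_one eqv_one hv
  rw [mul_one] at h
  exact (mul_eq_left.1 h.symm)

lemma symX_one_right (h1 : SymXAddStatement.{u} ℓ) {u : X → Ωˣ} (hu : EqvF (G := HZ F ζ) u) :
    symX ℓ F ζ u 1 = 1 := by
  have h := (h1 F Ω ζ hζ X hX).2.2 u 1 1 hu eqv_one eqv_one
  rw [mul_one] at h
  exact (mul_eq_left.1 h.symm)

lemma symX_pow_left (h1 : SymXAddStatement.{u} ℓ) {u v : X → Ωˣ} (hu : EqvF (G := HZ F ζ) u)
    (hv : EqvF (G := HZ F ζ) v) (k : ℕ) : symX ℓ F ζ (u ^ k) v = symX ℓ F ζ u v ^ k := by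
  induction k with
  | zero => rw [pow_zero, pow_zero, symX_one_left hζ hX h1 hv]
  | succ k ih => rw [pow_succ, pow_succ, (h1 F Ω ζ hζ X hX).2.1 _ _ v (eqv_pow hu k) hu hv, ih]

lemma symX_pow_right (h1 : SymXAddStatement.{u} ℓ) {u v : X → Ωˣ} (hu : EqvF (G := HZ F ζ) u)
    (hv : EqvF (G := HZ F ζ) v) (k : ℕ) : symX ℓ F ζ u (v ^ k) = symX ℓ F ζ u v ^ k := by
  induction k with
  | zero => rw [pow_zero, pow_zero, symX_one_right hζ hX h1 hu]
  | succ k ih => rw [pow_succ, pow_succ, (h1 F Ω ζ hζ X hX).2.2 u _ _ hu (eqv_pow hv k) hv, ih]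

/-- Symbols with a constant first entry. -/
lemma symX_const (h2 : SymXPushStatement.{u} ℓ) (h4 : SymXIdentStatement.{u} ℓ) {v : X → Ωˣ}
    (hv : EqvF (G := HZ F ζ) v) (c : Ωˣ) (hc : InL F ζ c) :
    symX ℓ F ζ (fun _ : X => c) v ∈ SS ℓ F ζ := by
  classical
  have hce : EqvF (G := HZ F ζ) (fun _ : X => c) := by
    intro g x
    exact (hc g.1 g.2).symm
  have e1 := (h4 F Ω ζ hζ X hX).1 (fun _ : X => c) v hce hv
  have e2 : symX ℓ F ζ (fun _ : X => c) v = (symX ℓ F ζ v (fun _ : X => c))⁻¹ := eq_inv_of_mul_eq_one_left e1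
  rw [e2]
  apply Subgroup.inv_mem
  have hπ : ∀ (h : HZ F ζ) (x : X), (fun _ : X => PUnit.unit.{u+1}) (h • x) =
      h • (fun _ : X => PUnit.unit.{u+1}) x := fun _ _ => rfl
  have e3 := (h2 F Ω ζ hζ).1 X PUnit.{u+1} (fun _ => PUnit.unit) hπ v (fun _ => c)
  have e4 : ((fun _ : PUnit.{u+1} => c) ∘ (fun _ : X => PUnit.unit.{u+1})) = (fun _ : X => c) := rfl
  rw [e4] at e3
  rw [e3]
  have hp := eqv_push (F := F) (ζ := ζ) (fun _ : X => PUnit.unit.{u+1}) hπ hv
  have e5 : (fun y : PUnit.{u+1} => ∏ x ∈ Finset.univ.filter (fun _ : X => PUnit.unit.{u+1} = y),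
      v x) = (fun _ : PUnit.{u+1} => ∏ x ∈ Finset.univ.filter
        (fun _ : X => PUnit.unit.{u+1} = PUnit.unit), v x) := by
    funext y
    cases y
    rfl
  rw [e5, (h2 F Ω ζ hζ).2 PUnit.{u+1} PUnit.unit (fun _ => rfl) _ c]
  apply Subgroup.subset_closure
  refine ⟨_, c, ?_, hc, rfl⟩
  intro g hg
  exact (hp ⟨g, hg⟩ PUnit.unit).symm

end

theorem rt_key [IsGalois F Ω] [IsSepClosed Ω] (hζ : IsPrimitiveRoot ζ ℓ)
    (h1 : SymXAddStatement.{u} ℓ) (h2 : SymXPushStatement.{u} ℓ) (h3 : SymXSteinStatement.{u} ℓ)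
    (h4 : SymXIdentStatement.{u} ℓ) (h5 : SymXMulStatement.{u} ℓ) (h6 : LagStatement.{u} ℓ) :
    ∀ n : ℕ, ∀ (X : Type u) [MulAction (HZ F ζ) X] [Fintype X], Fintype.card X = n →
    OpenStab (HZ F ζ) X → ∀ u v : X → Ωˣ, EqvF (G := HZ F ζ) u → EqvF (G := HZ F ζ) v →
    symX ℓ F ζ u v ∈ SS ℓ F ζ := by
  classical
  intro n
  induction n using Nat.strong_induction_on with
  | _ n ih =>
  intro X _ _ hn hX u v hu hv
  rcases isEmpty_or_nonempty X with hE | hE
  · have : u = 1 := by funext x; exact hE.elim x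
    rw [this, symX_one_left hζ hX h1 hv]
    exact one_mem _
  by_cases hinj : Function.Injective v
  swap
  · -- push forward to the range
    let _ : MulAction (HZ F ζ) (Set.range v) :=
      { smul := fun g y => ⟨g • y.1, by
          obtain ⟨x, hx⟩ := y.2
          exact ⟨g • x, by rw [hv, hx]⟩⟩
        one_smul := fun y => Subtype.ext (one_smul _ _)
        mul_smul := fun g h y => Subtype.ext (mul_smul _ _ _) }
    have hπ : ∀ (h : HZ F ζ) (x : X), (fun x : X => (⟨v x, x, rfl⟩ : Set.range v)) (h • x) =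
        h • (fun x : X => (⟨v x, x, rfl⟩ : Set.range v)) x := by
      intro h x
      exact Subtype.ext (hv h x)
    have e1 := (h2 F Ω ζ hζ).1 X (Set.range v) (fun x => ⟨v x, x, rfl⟩) hπ u (fun y => y.1)
    have e2 : ((fun y : Set.range v => y.1) ∘ (fun x : X => (⟨v x, x, rfl⟩ : Set.range v))) = v := rfl
    rw [e2] at e1
    rw [e1]
    have hcard : Fintype.card (Set.range v) < n := by
      rw [← hn]
      have hs : Function.Surjective (fun x : X => (⟨v x, x, rfl⟩ : Set.range v)) := by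
        rintro ⟨_, x, rfl⟩
        exact ⟨x, rfl⟩
      refine lt_of_le_of_ne (Fintype.card_le_of_surjective _ hs) fun hcon => hinj ?_
      have hb := (Fintype.bijective_iff_surjective_and_card _).2 ⟨hs, hcon.symm⟩
      intro a b hab
      exact hb.1 (Subtype.ext hab)
    refine ih _ hcard (Set.range v) rfl ?_ _ _ (eqv_push _ hπ hu) ?_
    · intro y
      have : {g : HZ F ζ | g • y = y} = {g : HZ F ζ | g • y.1 = y.1} := by
        ext g
        constructor
        · intro h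
          exact congrArg Subtype.val h
        · intro h
          exact Subtype.ext h
      rw [this]
      exact open_stab_units y.1
    · intro g y
      rfl
  · obtain ⟨Q, c, k, R, _, _, β, m, hQ, hRs, hc, hβ, hm, hm0, hcard, hprod⟩ :=
      h6 F Ω ζ hζ X u v hu hv hinj
    have hvQ := eqv_pow hv Q
    have huQ := eqv_pow hu Q
    have hZ : OpenStab (HZ F ζ) (X × R) := by
      rintro ⟨x, r⟩
      have : {g : HZ F ζ | g • (x, r) = (x, r)} = {g | g • x = x} ∩ {g | g • r = r} := by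
        ext g
        exact Prod.ext_iff
      rw [this]
      exact (hX x).inter (hRs r)
    have hne : ∀ z : X × R, ((v z.1 ^ Q : Ωˣ) : Ω) - β z.2 ≠ 0 := by
      intro z hz
      have e := hprod z.1
      rw [Finset.prod_eq_zero (Finset.mem_univ z.2) (by rw [hz, zero_pow (hm0 z.2)]), mul_zero] at e
      exact Units.ne_zero _ e
    let w : X × R → Ωˣ := fun z => Units.mk0 _ (hne z)
    have hw : EqvF (G := HZ F ζ) w := by
      intro g z
      apply Units.ext
      show ((v (g • z.1) ^ Q : Ωˣ) : Ω) - β (g • z.2) = g.1 (((v z.1 ^ Q : Ωˣ) : Ω) - β z.2)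
      have e1 := hvQ g z.1
      simp only [Pi.pow_apply] at e1
      rw [e1, hβ g z.2, map_sub]
      rfl
    have hα : EqvF (G := HZ F ζ) (fun z : X × R => v z.1 ^ Q) := by
      intro g z
      have e1 := hvQ g z.1
      simp only [Pi.pow_apply] at e1
      exact e1
    have hβ' : EqvF (G := HZ F ζ) (fun z : X × R => β z.2) := fun g z => hβ g z.2
    have hpow : ∀ {f : X × R → Ωˣ}, EqvF (G := HZ F ζ) f →
        EqvF (G := HZ F ζ) (fun z => f z ^ m z.2) := by
      intro f hf g z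
      show f (g • z) ^ m (g • z.2) = g • (f z ^ m z.2)
      rw [hm, hf, smul_pow']
    -- over `R`
    have hR : ∀ f : X × R → Ωˣ, EqvF (G := HZ F ζ) f →
        symX ℓ F ζ f (fun z : X × R => β z.2) ∈ SS ℓ F ζ := by
      intro f hf
      have e1 := (h2 F Ω ζ hζ).1 (X × R) R Prod.snd (fun _ _ => rfl) f β
      have e2 : (β ∘ Prod.snd) = (fun z : X × R => β z.2) := rfl
      rw [e2] at e1
      rw [e1]
      exact ih _ (hn ▸ hcard) R rfl hRs _ _ (eqv_push _ (fun _ _ => rfl) hf) hβ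
    have hW : symX ℓ F ζ (fun z => w z ^ m z.2) (fun z : X × R => v z.1 ^ Q) ∈ SS ℓ F ζ := by
      have e1 := h5 F Ω ζ hζ (X × R) hZ (fun z => v z.1 ^ Q) (fun z => β z.2) w hα hβ' hw
        (fun z => m z.2) (fun h z => hm h z.2) (fun z => rfl)
      have e2 := hR _ (hpow hα)
      have e3 := hR _ (hpow hw)
      rw [← e1] at e3
      exact (Subgroup.mul_mem_cancel_right _ e2).1 e3
    have hfst : symX ℓ F ζ (fun z => w z ^ m z.2) (fun z : X × R => v z.1 ^ Q) =
        symX ℓ F ζ (fun x => ∏ r, w (x, r) ^ m r) (v ^ Q) := by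
      have e1 := (h2 F Ω ζ hζ).1 (X × R) X Prod.fst (fun _ _ => rfl) (fun z => w z ^ m z.2) (v ^ Q)
      have e2 : ((v ^ Q) ∘ Prod.fst) = (fun z : X × R => v z.1 ^ Q) := rfl
      rw [e2] at e1
      rw [e1]
      congr 1
      funext y
      rw [Finset.prod_filter, Fintype.prod_prod_type]
      rw [Finset.prod_eq_single y]
      · simp
      · intro x _ hx
        simp [hx]
      · intro hy
        exact absurd (Finset.mem_univ y) hy
    rw [hfst] at hW
    have hWe : EqvF (G := HZ F ζ) (fun x => ∏ r, w (x, r) ^ m r) := by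
      intro g x
      show ∏ r, w (g • x, r) ^ m r = g • ∏ r, w (x, r) ^ m r
      rw [Finset.smul_prod']
      rw [← Equiv.prod_comp (MulAction.toPerm g)]
      apply Finset.prod_congr rfl
      intro r _
      exact hpow hw g (x, r)
    have hce : EqvF (G := HZ F ζ) (fun _ : X => c) := fun g x => (hc g.1 g.2).symm
    have hdec : u ^ Q = (fun _ : X => c) * (v ^ Q) ^ k * (fun x => ∏ r, w (x, r) ^ m r) := by
      funext x
      apply Units.ext
      have e := hprod x
      simp only [Pi.mul_apply, Pi.pow_apply, Units.val_mul, Units.val_pow_eq_pow_val,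
        Units.coe_prod] at e ⊢
      rw [e]
      rfl
    have hfin : symX ℓ F ζ u v ^ (Q * Q) ∈ SS ℓ F ζ := by
      have e0 : symX ℓ F ζ u v ^ (Q * Q) = symX ℓ F ζ (u ^ Q) (v ^ Q) := by
        rw [pow_mul, ← symX_pow_left hζ hX h1 hu hv, ← symX_pow_right hζ hX h1 huQ hv]
      rw [e0, hdec,
        (h1 F Ω ζ hζ X hX).2.1 _ _ _ (eqv_mul hce (eqv_pow hvQ k)) hWe hvQ,
        (h1 F Ω ζ hζ X hX).2.1 _ _ _ hce (eqv_pow hvQ k) hvQ, symX_pow_left hζ hX h1 hvQ hvQ,
        (h3 F Ω ζ hζ X hX).1 _ hvQ, one_pow, mul_one]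
      exact mul_mem (symX_const hζ hX h2 h4 hvQ c hc) hW
    exact mem_of_pow _ _ _ (Nat.Coprime.mul_left hQ hQ) hfin ((h1 F Ω ζ hζ X hX).1 u v hu hv).2

end

theorem rt (h1 : SymXAddStatement.{u} ℓ) (h2 : SymXPushStatement.{u} ℓ) (h3 : SymXSteinStatement.{u} ℓ)
    (h4 : SymXIdentStatement.{u} ℓ) (h5 : SymXMulStatement.{u} ℓ) (h6 : LagStatement.{u} ℓ) :
    RTStatement.{u} ℓ := by
  intro F Ω _ _ _ _ _ ζ hζ X _ _ hX u v hu hv
  exact rt_key hζ h1 h2 h3 h4 h5 h6 _ X rfl hX u v hu hv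

end BRP.H65
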